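import Pool.Agent.W845.PM.Base

set_option autoImplicit false
open scoped Classical
open Filter Topology MeasureTheory ProbabilityTheory
open scoped ENNReal NNReal BigOperators

namespace Pool.Agent.W636.PM

open Pool.Agent.W845.PM

theorem measurable_gB (j : ℕ) : Measurable (gB j) := (continuous_gB j).measurable

theorem T_succ (k : ℕ) (ω : Om) :
    T gB 0 (k + 1) ω = (∑ i ∈ Finset.range (ω []), T gB 0 k (sh i ω))⁻¹ := rfl

theorem T_dich (k : ℕ) : ∀ ω : Om, T gB 0 k ω = 0 ∨ T gB 0 k ω = ⊤ := by
  induction k with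
  | zero => intro ω; left; rfl
  | succ k ih =>
    intro ω
    rw [T_succ]
    by_cases h : ∀ i ∈ Finset.range (ω []), T gB 0 k (sh i ω) = 0
    · right
      rw [Finset.sum_eq_zero h, ENNReal.inv_zero]
    · left
      push Not at h
      obtain ⟨i, hi, hne⟩ := h
      have htop : T gB 0 k (sh i ω) = ⊤ := (ih (sh i ω)).resolve_left hne
      rw [ENNReal.inv_eq_zero, ENNReal.sum_eq_top]
      exact ⟨i, hi, htop⟩

theorem T_succ_top (k : ℕ) (ω : Om) :
    (if T gB 0 (k + 1) ω = ⊤ then (1 : ℝ) else 0) =
      ∏ i ∈ Finset.range (ω []), (if T gB 0 k (sh i ω) = ⊤ then (0 : ℝ) else 1) := by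
  by_cases h : ∀ i ∈ Finset.range (ω []), T gB 0 k (sh i ω) = 0
  · have h1 : T gB 0 (k + 1) ω = ⊤ := by
      rw [T_succ, Finset.sum_eq_zero h, ENNReal.inv_zero]
    rw [if_pos h1]
    symm
    apply Finset.prod_eq_one
    intro i hi
    rw [h i hi, if_neg ENNReal.zero_ne_top]
  · push Not at h
    obtain ⟨i, hi, hne⟩ := h
    have htop : T gB 0 k (sh i ω) = ⊤ := (T_dich k (sh i ω)).resolve_left hne
    have h1 : T gB 0 (k + 1) ω = 0 := by
      rw [T_succ, ENNReal.inv_eq_zero, ENNReal.sum_eq_top]
      exact ⟨i, hi, htop⟩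
    rw [h1, if_neg ENNReal.zero_ne_top]
    symm
    apply Finset.prod_eq_zero hi
    rw [if_pos htop]

theorem jt : S_TM → S_GEN → S_JT := by
  intro hTM hGEN c k
  refine ⟨T_dich k, ?_⟩
  induction k with
  | zero =>
    have : {ω : Om | T gB 0 0 ω = ⊤} = ∅ := by
      ext ω
      simp [T]
    rw [this]
    simp [jc]
  | succ k ih =>
    have hm : ∀ k, Measurable (T gB 0 k) := fun k => hTM.2 gB 0 measurable_gB k
    have hset : ∀ k, MeasurableSet {ω : Om | T gB 0 k ω = ⊤} := fun k =>
      (hm k) (measurableSet_singleton ⊤)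
    have hint : ∀ k, ∫ ω, (if T gB 0 k ω = ⊤ then (1 : ℝ) else 0) ∂(Pm c) =
        ((Pm c) {ω | T gB 0 k ω = ⊤}).toReal := by
      intro k
      have : (fun ω : Om => (if T gB 0 k ω = ⊤ then (1 : ℝ) else 0)) =
          Set.indicator {ω : Om | T gB 0 k ω = ⊤} (fun _ => (1 : ℝ)) := by
        ext ω
        simp [Set.indicator]
      rw [this, integral_indicator (hset k)]
      simp [Measure.real]
    have ha : Measurable (fun ω : Om => (if T gB 0 k ω = ⊤ then (0 : ℝ) else 1)) :=
      Measurable.ite (hset k) measurable_const measurable_const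
    have hg := hGEN c (fun ω => (if T gB 0 k ω = ⊤ then (0 : ℝ) else 1)) ha (by
      intro ω
      split_ifs <;> constructor <;> norm_num)
    rw [← hint (k + 1)]
    have e1 : (fun ω : Om => (if T gB 0 (k + 1) ω = ⊤ then (1 : ℝ) else 0)) =
        fun ω => ∏ i ∈ Finset.range (ω []),
          (if T gB 0 k (sh i ω) = ⊤ then (0 : ℝ) else 1) := by
      funext ω
      exact T_succ_top k ω
    rw [e1, hg]
    have e2 : ∫ ω, (if T gB 0 k ω = ⊤ then (0 : ℝ) else 1) ∂(Pm c) = 1 - jc c k := by
      have e3 : (fun ω : Om => (if T gB 0 k ω = ⊤ then (0 : ℝ) else 1)) =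
          fun ω => (1 : ℝ) - (if T gB 0 k ω = ⊤ then (1 : ℝ) else 0) := by
        funext ω
        split_ifs <;> norm_num
      rw [e3, integral_sub (integrable_const _), hint k, ih]
      · simp
      · refine Integrable.of_bound (C := 1)
          (Measurable.ite (hset k) measurable_const measurable_const).aestronglyMeasurable
          (Filter.Eventually.of_forall (fun ω => ?_))
        split_ifs <;> norm_num
    rw [e2]
    simp [jc]

theorem measurable_sh (i : ℕ) : Measurable (sh i) :=
  measurable_pi_iff.2 (fun l => measurable_pi_apply (i :: l))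

theorem measurable_T (k : ℕ) : Measurable (T gB 0 k) := by
  induction k with
  | zero => exact measurable_const
  | succ k ih =>
    have h1 : Measurable (fun ω : Om => ∑ i ∈ Finset.range (ω []), T gB 0 k (sh i ω)) := by
      have h2 : Measurable (fun q : ℕ × Om => ∑ i ∈ Finset.range q.1, T gB 0 k (sh i q.2)) :=
        measurable_from_prod_countable_right (fun n => by
          show Measurable (fun y : Om => ∑ i ∈ Finset.range n, T gB 0 k (sh i y))
          exact Finset.measurable_sum (Finset.range n) (fun i _ => ih.comp (measurable_sh i)))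
      have h3 : Measurable (fun ω : Om => ω []) := measurable_pi_apply ([] : List ℕ)
      exact h2.comp (h3.prodMk measurable_id)
    exact h1.inv

theorem jconv : S_LOC → S_JU → S_JT → S_EX → S_JCONV := by
  intro hLOC hJU hJT hEX c k hc
  have hc' : ((c.toNNReal : ℝ≥0) : ℝ) = c := Real.coe_toNNReal c hc
  obtain ⟨hexc, -, -, hex0, -, -⟩ := hEX
  have hextop : ex ⊤ = 0 := by simp [ex]
  have h := hLOC c.toNNReal gB 0 continuous_gB k (fun u => 1 - ex u) (continuous_const.sub hexc)
  rw [hc'] at h
  have e1 : (fun (n : ℕ) (G : SimpleGraph (Fin n)) (v : Fin n) => 1 - ex (U gB 0 k G v)) =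
      fun n G v => if J k G v then (1 : ℝ) else 0 := by
    funext n G v
    rw [hJU (Fin n) k G v]
    split_ifs
    · rw [hextop]; norm_num
    · rw [hex0]; norm_num
  rw [e1] at h
  have e2 : ∫ ω, (1 - ex (T gB 0 k ω)) ∂(Pm c.toNNReal) = jc c k := by
    have hj := (hJT c.toNNReal k).2
    rw [hc'] at hj
    rw [← hj]
    have e3 : (fun ω : Om => 1 - ex (T gB 0 k ω)) =
        Set.indicator {ω : Om | T gB 0 k ω = ⊤} (fun _ => (1 : ℝ)) := by
      funext ω
      rcases T_dich k ω with h0 | h0
      · simp [Set.indicator, h0, hex0]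
      · simp [Set.indicator, h0, hextop]
    have hs : MeasurableSet {ω : Om | T gB 0 k ω = ⊤} :=
      (measurable_T k) (measurableSet_singleton ⊤)
    rw [e3, integral_indicator hs]
    simp [Measure.real]
  rw [e2] at h
  exact h

end Pool.Agent.W636.PM
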